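import Mathlib

/-!
`binom (3 n - 1) n` is even for every `n ≥ 1`: the residue `1` modulo `2` is never attained by
`binom (a n + α) (b n + β)` for `a = 3`, `b = 1`, `α = -1`, `β = 0`, although `gcd (2, 3) = 1`.
-/

namespace Pool.Agent.Results.MP_859259_nt.AlwaysEven

/-- The binomial coefficient `binom (a n + α) (b n + β)` for integers `α, β`; it is the ordinary
binomial coefficient whenever `0 ≤ b n + β ≤ a n + α`, hence for all large `n` when `a > b`. -/
def B (a b : ℕ) (α β : ℤ) (n : ℕ) : ℕ :=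
  ((a : ℤ) * n + α).toNat.choose ((b : ℤ) * n + β).toNat

/-- The statement of the question. -/
def Q1 : Prop :=
  ∀ a b : ℕ, 0 < b → b < a → ∀ α β : ℤ, ∀ p : ℕ, p.Prime → Nat.Coprime p a →
    ∀ r : ℕ, r < p → {n : ℕ | 0 < n ∧ B a b α β n ≡ r [MOD p]}.Infinite

theorem even_choose (n : ℕ) (hn : 0 < n) : 2 ∣ (3 * n - 1).choose n := by
  obtain ⟨m, rfl⟩ : ∃ m, n = m + 1 := ⟨n - 1, by omega⟩
  have e : 3 * (m + 1) - 1 = 3 * m + 2 := by omega
  rw [e]
  -- (m+1) * C(3m+2, m+1) = (2m+2) * C(3m+2, m)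
  have h2 := Nat.choose_succ_right_eq (3 * m + 2) m
  have e2 : 3 * m + 2 - m = 2 * (m + 1) := by omega
  rw [e2] at h2
  have h3 : (3 * m + 2).choose (m + 1) = 2 * (3 * m + 2).choose m := by
    have : (m + 1) * (3 * m + 2).choose (m + 1) = (m + 1) * (2 * (3 * m + 2).choose m) := by
      calc (m + 1) * (3 * m + 2).choose (m + 1) = (3 * m + 2).choose (m + 1) * (m + 1) := by ring
        _ = (3 * m + 2).choose m * (2 * (m + 1)) := h2
        _ = _ := by ring
    exact Nat.eq_of_mul_eq_mul_left (Nat.succ_pos m) this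
  rw [h3]
  exact Dvd.intro _ rfl

/-- `binom (3 n - 1) n` is even for every `n ≥ 1`, so the assertion of the question fails for
`a = 3`, `b = 1`, `α = -1`, `β = 0`, `p = 2`, `r = 1`. -/
theorem result : (∀ n : ℕ, 0 < n → B 3 1 (-1) 0 n ≡ 0 [MOD 2]) ∧ ¬ Q1 := by
  have h1 : ∀ n : ℕ, 0 < n → B 3 1 (-1) 0 n ≡ 0 [MOD 2] := by
    intro n hn
    have e : B 3 1 (-1) 0 n = (3 * n - 1).choose n := by
      unfold B
      congr 1
      · push_cast; omega
      · push_cast; omega
    rw [e]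
    exact (Nat.modEq_zero_iff_dvd).mpr (even_choose n hn)
  refine ⟨h1, ?_⟩
  intro h
  have h2 := h 3 1 (by norm_num) (by norm_num) (-1) 0 2 Nat.prime_two (by norm_num) 1 (by norm_num)
  apply h2
  have : {n : ℕ | 0 < n ∧ B 3 1 (-1) 0 n ≡ 1 [MOD 2]} = ∅ := by
    ext n
    simp only [Set.mem_ofPred_eq, Set.mem_empty_iff_false, iff_false, not_and]
    intro hn hcon
    have h3 := (h1 n hn).symm.trans hcon
    exact absurd h3 (by decide)
  rw [this]
  exact Set.finite_empty

end Pool.Agent.Results.MP_859259_nt.AlwaysEven
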